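import Mathlib

set_option autoImplicit false
open Set Function Topology Filter TopologicalSpace

namespace Pool.Agent.H.MP_0decd7

lemma free {ι : Type} (hι : ¬ (univ : Set ι).Countable) (out : ι → Set ι) (h : ∀ i, (out i).Finite) :
    ∃ a : ℕ → ι, ∀ n m, n < m → a n ∉ out (a m) ∧ a m ∉ out (a n) := by
  have step : ∀ S : {S : Set ι // ¬ S.Countable}, ∃ c ∈ S.1, ∃ S' : {S : Set ι // ¬ S.Countable},
      S'.1 ⊆ S.1 ∧ ∀ b ∈ S'.1, c ∉ out b ∧ b ∉ out c := by
    rintro ⟨S, hS⟩
    have hi : S.Infinite := fun e => hS e.countable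
    obtain ⟨n, hn⟩ : ∃ n, ¬ {b ∈ S | (hi.natEmbedding S n).1 ∉ out b}.Countable := by
      by_contra hc
      push Not at hc
      refine hS ((countable_iUnion hc).mono fun b hb => ?_)
      by_contra hb'
      refine (h b).not_infinite (infinite_of_injective_forall_mem
        (f := fun n => (hi.natEmbedding S n).1)
        (Subtype.val_injective.comp (hi.natEmbedding S).injective) fun n => ?_)
      by_contra hn
      exact hb' (mem_iUnion.2 ⟨n, hb, hn⟩)
    refine ⟨_, (hi.natEmbedding S n).2, ⟨{b ∈ S | (hi.natEmbedding S n).1 ∉ out b} \ out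
      (hi.natEmbedding S n).1, fun e => hn ((e.union (h _).countable).mono
        (subset_sdiff_union _ _))⟩, fun b hb => hb.1.1, fun b hb => ⟨hb.1.2, hb.2⟩⟩
  choose c hc g hg1 hg2 using step
  let S : ℕ → {S : Set ι // ¬ S.Countable} := fun n => g^[n] ⟨univ, hι⟩
  have hS : ∀ n, S (n + 1) = g (S n) := fun n => iterate_succ_apply' g n _
  have ha : Antitone fun n => (S n).1 := antitone_nat_of_succ_le fun n => by
    simp only [hS]; exact hg1 _
  refine ⟨fun n => c (S n), fun n m hnm => hg2 (S n) _ ?_⟩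
  rw [← hS]
  exact ha hnm (hc (S m))

abbrev u : ℕ → StoneCech ℕ := stoneCechUnit

def cl (A : Set ℕ) : Set (StoneCech ℕ) := closure (u '' A)

lemma cl_union (A B : Set ℕ) : cl (A ∪ B) = cl A ∪ cl B := by
  simp only [cl, image_union, closure_union]

lemma cl_mono {A B : Set ℕ} (h : A ⊆ B) : cl A ⊆ cl B := closure_mono (image_mono h)

lemma cl_or (A : Set ℕ) (x : StoneCech ℕ) : x ∈ cl A ∨ x ∈ cl Aᶜ := by
  have : x ∈ cl (A ∪ Aᶜ) := by
    rw [union_compl_self, cl, image_univ]
    exact denseRange_stoneCechUnit x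
  rwa [cl_union] at this

lemma cl_not {A : Set ℕ} {x : StoneCech ℕ} (h : x ∈ cl A) (h' : x ∈ cl Aᶜ) : False := by
  classical
  have hc : Continuous fun n : ℕ => decide (n ∈ A) := continuous_of_discreteTopology
  have e : ∀ n, stoneCechExtend hc (u n) = decide (n ∈ A) := fun n =>
    congrFun (stoneCechExtend_extends hc) n
  have k : ∀ b, IsClosed {x | stoneCechExtend hc x = b} := fun b =>
    isClosed_eq (continuous_stoneCechExtend hc) continuous_const
  have h1 := closure_minimal (t := {x | stoneCechExtend hc x = true})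
    (by rintro _ ⟨n, hn, rfl⟩; simpa [e] using hn) (k true) h
  have h2 := closure_minimal (t := {x | stoneCechExtend hc x = false})
    (by rintro _ ⟨n, hn, rfl⟩; simpa [e] using hn) (k false) h'
  exact absurd (h1.symm.trans h2) (by simp)

lemma cl_inter {A B : Set ℕ} {x : StoneCech ℕ} (h : x ∈ cl A) (h' : x ∈ cl B) : x ∈ cl (A ∩ B) := by
  rw [← inter_union_sdiff A B, cl_union] at h
  exact h.resolve_right fun e => cl_not h' (cl_mono (fun _ h => h.2) e)

lemma cl_clopen (A : Set ℕ) : IsClopen (cl A) := by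
  refine ⟨isClosed_closure, ?_⟩
  have : cl A = (cl Aᶜ)ᶜ := Set.ext fun x => ⟨fun h h' => cl_not h h', (cl_or A x).resolve_right⟩
  rw [this]
  exact isClosed_closure.isOpen_compl

lemma cl_fin {A : Set ℕ} (h : A.Finite) : cl A = u '' A := (h.image _).isClosed.closure_eq

lemma cl_inf {A : Set ℕ} (h : A.Infinite) : ∃ x ∈ cl A, x ∉ range u := by
  by_contra hn
  push Not at hn
  obtain ⟨t, ht⟩ := (isClosed_closure (s := u '' A)).isCompact.elim_finite_subcover
    (fun n => cl {n}) (fun n => (cl_clopen _).2) fun x hx => by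
      obtain ⟨n, rfl⟩ := hn x hx
      exact mem_iUnion.2 ⟨n, subset_closure ⟨n, rfl, rfl⟩⟩
  refine h (t.finite_toSet.subset fun n hn => ?_)
  obtain ⟨m, hm, h1⟩ := mem_iUnion₂.1 (ht (subset_closure ⟨n, hn, rfl⟩))
  by_contra hc
  exact cl_not h1 (subset_closure ⟨n, fun e => hc (e ▸ hm), rfl⟩)

abbrev R : Set (StoneCech ℕ) := (range u)ᶜ

lemma R_closed : IsClosed R := by
  have : range u = ⋃ n, cl {n} := by
    simp only [cl_fin (finite_singleton _), image_singleton, iUnion_singleton_eq_range]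
  rw [R, this]
  exact (isOpen_iUnion fun n => (cl_clopen _).2).isClosed_compl

def st (A : Set ℕ) : Clopens R := ⟨Subtype.val ⁻¹' cl A, (cl_clopen A).preimage continuous_subtype_val⟩

lemma st_fin {A B : Set ℕ} (h : (A ∩ B).Finite) {x : R} (h1 : x.1 ∈ cl A) (h2 : x.1 ∈ cl B) : False := by
  have := cl_inter h1 h2
  rw [cl_fin h] at this
  exact x.2 (image_subset_range _ _ this)

lemma rep {P : Set R} (h : IsClopen P) : ∃ A, ∀ x : R, x ∈ P ↔ x.1 ∈ cl A := by
  have e := R_closed.isClosedEmbedding_subtypeVal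
  obtain ⟨U, V, hU, hV, h1, h2, h3⟩ := normal_separation (e.isClosedMap _ h.1)
    (e.isClosedMap _ h.compl.1) (disjoint_image_of_injective e.injective disjoint_compl_right)
  refine ⟨u ⁻¹' U, fun x => ⟨fun hx => ?_, fun hx => ?_⟩⟩
  · rw [cl, image_preimage_eq_inter_range]
    exact denseRange_stoneCechUnit.open_subset_closure_inter hU (h1 ⟨x, hx, rfl⟩)
  · by_contra hn
    exact Set.disjoint_left.1 (h3.closure_left hV) (closure_mono (image_preimage_subset _ _) hx)
      (h2 ⟨x, hn, rfl⟩)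

lemma sepn (P : ℕ → Set R) (hP : ∀ n, IsClopen (P n)) (hd : ∀ n m, n < m → Disjoint (P n) (P m))
    (p : R) : ∃ Q : Clopens R, p ∈ Q ∧ {n | Disjoint (Q : Set R) (P n)}.Infinite := by
  choose A hA using fun n => rep (hP n)
  have h1 : ∀ n m, n < m → (A n ∩ A m).Finite := by
    intro n m h
    by_contra hn
    obtain ⟨x, hx, hx'⟩ := cl_inf hn
    exact Set.disjoint_left.1 (hd n m h) ((hA n ⟨x, hx'⟩).2 (cl_mono inter_subset_left hx))
      ((hA m ⟨x, hx'⟩).2 (cl_mono inter_subset_right hx))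
  have h2 : ∀ n, (⋃ m ∈ Iio n, A m ∩ A n).Finite := fun n =>
    (finite_Iio n).biUnion fun m hm => h1 m n hm
  let B : Set ℕ := {k | ∃ n, k ∈ A (2 * n) ∧ ∀ m < 2 * n, k ∉ A m}
  rcases cl_or B p.1 with h | h
  · refine ⟨st B, h, infinite_of_injective_forall_mem (f := fun n => 2 * n + 1)
      (fun a b e => by simpa using e) fun n => Set.disjoint_left.2 fun x h1 h2' => ?_⟩
    refine st_fin ((h2 (2 * n + 1)).subset ?_) h1 ((hA _ x).1 h2')
    rintro k ⟨⟨j, a, b⟩, d⟩
    exact mem_iUnion₂.2 ⟨2 * j, by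
      by_contra hc
      exact b _ (by simp only [mem_Iio] at hc; omega) d, a, d⟩
  · refine ⟨st Bᶜ, h, infinite_of_injective_forall_mem (f := fun n => 2 * n)
      (fun a b e => by simpa using e) fun n => Set.disjoint_left.2 fun x h1 h2' => ?_⟩
    refine st_fin ((h2 (2 * n)).subset ?_) h1 ((hA _ x).1 h2')
    rintro k ⟨a, d⟩
    by_contra hc
    exact a ⟨n, d, fun m hm e => hc (mem_iUnion₂.2 ⟨m, hm, e, d⟩)⟩

def br (f : ℕ → Bool) : Set ℕ := range fun n => Encodable.encode (n, (List.range n).map f)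

lemma br_inf (f : ℕ → Bool) : (br f).Infinite :=
  infinite_range_of_injective fun _ _ e => congrArg Prod.fst (Encodable.encode_injective e)

lemma br_fin {f g : ℕ → Bool} (h : f ≠ g) : (br f ∩ br g).Finite := by
  obtain ⟨i, hi⟩ := Function.ne_iff.1 h
  refine ((finite_Iic i).image fun n => Encodable.encode (n, (List.range n).map f)).subset ?_
  rintro _ ⟨⟨n, rfl⟩, m, e⟩
  refine ⟨n, ?_, rfl⟩
  obtain ⟨rfl, e2⟩ := Prod.mk.inj (Encodable.encode_injective e)
  by_contra hc
  exact hi (List.map_inj_left.1 e2 i (List.mem_range.2 (not_le.1 hc))).symm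

abbrev C : Set (Clopens R → Bool) :=
  {f | ∀ F : Finset (Clopens R), (∀ U ∈ F, f U = true) → (⋂ U ∈ F, (U : Set R)).Nonempty}

lemma memC {f : Clopens R → Bool} (p : R) (h : ∀ U, f U = true → p ∈ U) : f ∈ C :=
  fun _ hF => ⟨p, mem_iInter₂.2 fun U hU => h U (hF U hU)⟩

theorem main : ¬ ∀ x y : C, ∃ h : C ≃ₜ C, h x = y := by
  classical
  intro H
  have hq : ∀ f, ∃ q : R, q ∈ st (br f) := fun f =>
    let ⟨x, a, b⟩ := cl_inf (br_inf f); ⟨⟨x, b⟩, a⟩
  choose q hq using hq
  let p := q fun _ => true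
  obtain ⟨h, e⟩ := H ⟨fun _ => false, memC p (by simp)⟩
    ⟨fun U => decide (p ∈ U), memC p fun U hU => by simpa using hU⟩
  let x : (ℕ → Bool) → C := fun f => ⟨fun U => decide (U = st (br f)), memC (q f) fun U hU => by
    rw [of_decide_eq_true hU]; exact hq f⟩
  have t1 : Tendsto x cofinite (𝓝 ⟨fun _ => false, memC p (by simp)⟩) := by
    rw [tendsto_subtype_rng, tendsto_pi_nhds]
    intro U
    refine tendsto_const_nhds.congr' (Set.Subsingleton.finite fun f hf g hg => ?_)
    by_contra hn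
    have h1 : U = st (br f) := by simpa [x] using hf
    have h2 : U = st (br g) := by simpa [x] using hg
    exact st_fin (br_fin hn) (hq f) ((h1.symm.trans h2 ▸ hq f :) : q f ∈ st (br g))
  have t2 : ∀ U, {f | (h (x f)).1 U ≠ decide (p ∈ U)}.Finite := by
    intro U
    have := (h.continuous.tendsto _).comp t1
    rw [e, tendsto_subtype_rng, tendsto_pi_nhds] at this
    simpa [nhds_discrete, eventually_cofinite] using this U
  have t3 : ∀ f, ∃ I : Set (Clopens R), I.Finite ∧ ∀ ξ : C, (∀ U ∈ I, ξ.1 U = (h (x f)).1 U) →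
      (h.symm ξ).1 (st (br f)) = true := by
    intro f
    have ho : IsOpen {ξ : C | (h.symm ξ).1 (st (br f)) = true} :=
      (isOpen_discrete {true}).preimage
        ((continuous_apply _).comp (continuous_subtype_val.comp h.symm.continuous))
    obtain ⟨s, hs, hs'⟩ := (mem_nhds_subtype _ _ _).1 (ho.mem_nhds (x := h (x f)) (by simp [x]))
    rw [nhds_pi, Filter.mem_pi] at hs
    obtain ⟨I, h1, t, h2, h3⟩ := hs
    exact ⟨I, h1, fun ξ hξ => hs' (h3 fun U hU => (hξ U hU).symm ▸ mem_of_mem_nhds (h2 U))⟩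
  choose I hI1 hI2 using t3
  obtain ⟨a, ha⟩ := free (ι := ℕ → Bool) (by
      rw [countable_univ_iff]
      intro hc
      obtain ⟨g, hg⟩ := exists_surjective_nat (ℕ → Bool)
      obtain ⟨n, hn⟩ := hg fun n => !(g n n)
      have := congrFun hn n
      simp at this)
    (fun f => insert f (⋃ U ∈ I f, {g | (h (x g)).1 U ≠ decide (p ∈ U)}))
    fun f => ((hI1 f).biUnion fun U _ => t2 U).insert f
  let P : ℕ → Set R := fun n => ⋂ U ∈ {U ∈ I (a n) | (h (x (a n))).1 U = true}, (U : Set R)
  obtain ⟨Q, hQ, hQ'⟩ := sepn P (fun n => ((hI1 _).subset (sep_subset _ _)).isClopen_biInter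
    fun U _ => U.isClopen) (fun n m hnm => Set.disjoint_left.2 fun z h1 h2 => by
      obtain ⟨g1, g2⟩ := ha n m hnm
      have k : ∀ U ∈ I (a n), U ∈ I (a m) → (h (x (a n))).1 U = (h (x (a m))).1 U := by
        intro U u1 u2
        have e1 : (h (x (a n))).1 U = decide (p ∈ U) := by
          by_contra hc
          exact g1 (Or.inr (mem_iUnion₂.2 ⟨U, u2, hc⟩))
        have e2 : (h (x (a m))).1 U = decide (p ∈ U) := by
          by_contra hc
          exact g2 (Or.inr (mem_iUnion₂.2 ⟨U, u1, hc⟩))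
        rw [e1, e2]
      let ξ : C := ⟨fun U => decide ((U ∈ I (a n) ∧ (h (x (a n))).1 U = true) ∨
          (U ∈ I (a m) ∧ (h (x (a m))).1 U = true)), memC z fun U hU => by
        rcases of_decide_eq_true hU with hU | hU
        · exact mem_iInter₂.1 h1 U hU
        · exact mem_iInter₂.1 h2 U hU⟩
      have b1 := hI2 (a n) ξ fun U hU => by
        rw [Bool.eq_iff_iff]
        simp only [ξ, decide_eq_true_eq]
        exact ⟨fun h => h.elim And.right fun h => (k U hU h.1).trans h.2, fun h => Or.inl ⟨hU, h⟩⟩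
      have b2 := hI2 (a m) ξ fun U hU => by
        rw [Bool.eq_iff_iff]
        simp only [ξ, decide_eq_true_eq]
        exact ⟨fun h => h.elim (fun h => (k U h.1 hU).symm.trans h.2) And.right,
          fun h => Or.inr ⟨hU, h⟩⟩
      obtain ⟨w, hw⟩ := (h.symm ξ).2 {st (br (a n)), st (br (a m))} (by
        intro U hU
        rcases Finset.mem_insert.1 hU with rfl | hU
        · exact b1
        · rw [Finset.mem_singleton.1 hU]; exact b2)
      exact st_fin (br_fin fun e => g1 (Or.inl e)) (mem_iInter₂.1 hw (st (br (a n))) (by simp))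
        (mem_iInter₂.1 hw (st (br (a m))) (by simp))) p
  have hinj : Injective a := fun n m e => by
    rcases lt_trichotomy n m with hnm | hnm | hnm
    · exact absurd (Or.inl e) (ha n m hnm).1
    · exact hnm
    · exact absurd (Or.inl e) (ha m n hnm).2
  obtain ⟨n, hn, hn'⟩ := hQ'.exists_notMem_finite ((t2 Q).preimage hinj.injOn)
  have e1 : (h (x (a n))).1 Q = true := by
    rw [not_not.1 hn']; simpa using hQ
  obtain ⟨w, hw⟩ := (h (x (a n))).2 (insert Q ((hI1 (a n)).toFinset.filter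
    fun U => (h (x (a n))).1 U = true)) (by
      intro U hU
      rcases Finset.mem_insert.1 hU with rfl | hU
      · exact e1
      · exact (Finset.mem_filter.1 hU).2)
  refine Set.disjoint_left.1 hn (mem_iInter₂.1 hw Q (by simp)) (mem_iInter₂.2 fun U hU =>
    mem_iInter₂.1 hw U ?_)
  exact Finset.mem_insert_of_mem (Finset.mem_filter.2 ⟨(hI1 _).mem_toFinset.2 hU.1, hU.2⟩)

end Pool.Agent.H.MP_0decd7
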